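import Pool.Agent.Q264.HM.Stm

/-! The bound function is primitive recursive (job BOUND of project HM, helper264). -/

set_option autoImplicit false

namespace Pool.Agent.Q154.HM

open Pool.Agent.Q264.HM

theorem t_BOUND : S_BOUND := by
  intro X Y _ _ N n R
  have hpow : Primrec₂ (fun a b : ℕ => a ^ b) := Primrec₂.unpaired'.1 Nat.Primrec.pow
  have h1 : Primrec fun L : List (List X × List Y) => L.flatMap Prod.fst :=
    Primrec.list_flatMap Primrec.id (Primrec.fst.comp Primrec.snd).to₂
  have h2 : Primrec fun L : List (List X × List Y) => (L.flatMap Prod.fst).length :=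
    Primrec.list_length.comp h1
  have h3 : Primrec fun L : List (List X × List Y) =>
      2 * (R * (L.flatMap Prod.fst).length + 1) :=
    Primrec.nat_mul.comp (Primrec.const 2)
      (Primrec.nat_add.comp (Primrec.nat_mul.comp (Primrec.const R) h2) (Primrec.const 1))
  have h4 : Primrec fun L : List (List X × List Y) =>
      4 * (N * N * (2 * n + 1) ^ (2 * (R * (L.flatMap Prod.fst).length + 1))) :=
    Primrec.nat_mul.comp (Primrec.const 4)
      (Primrec.nat_mul.comp (Primrec.const (N * N)) (hpow.comp (Primrec.const (2 * n + 1)) h3))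
  exact Primrec.nat_mul.comp (Primrec.const 3) (hpow.comp (Primrec.const 2) h4)

end Pool.Agent.Q154.HM
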