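import Pool.Agent.Q75.HM.Stm

set_option autoImplicit false

/-!
# Project HM (helper75), job LO: narrow openings
-/

namespace Pool.Agent.Q154.HM

open Complex Set Metric Filter Topology

open Pool.Agent.Q75.HM

/-- the branch of the root -/
noncomputable def sr (c t : ℝ) (z : ℂ) : ℂ := Complex.exp (Complex.log ((c : ℂ) ^ 2 + (z - t) ^ 2) / 2)

theorem sr_sq (c t : ℝ) (z : ℂ) (h : (c : ℂ) ^ 2 + (z - t) ^ 2 ≠ 0) :
    sr c t z ^ 2 = (c : ℂ) ^ 2 + (z - t) ^ 2 := by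
  unfold sr
  rw [← Complex.exp_nat_mul]
  have h1 : ((2 : ℕ) : ℂ) * (Complex.log ((c : ℂ) ^ 2 + (z - t) ^ 2) / 2) =
      Complex.log ((c : ℂ) ^ 2 + (z - t) ^ 2) := by
    push_cast
    ring
  rw [h1, Complex.exp_log h]

theorem sr_re (c t : ℝ) (z : ℂ) (h : (c : ℂ) ^ 2 + (z - t) ^ 2 ∈ slitPlane) : 0 < (sr c t z).re := by
  unfold sr
  rw [Complex.exp_re]
  apply mul_pos (Real.exp_pos _)
  apply Real.cos_pos_of_mem_Ioo
  have h1 : (Complex.log ((c : ℂ) ^ 2 + (z - t) ^ 2) / 2).im = Complex.arg ((c : ℂ) ^ 2 + (z - t) ^ 2) / 2 := by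
    rw [Complex.div_ofNat_im, Complex.log_im]
  rw [h1]
  have h2 := Complex.neg_pi_lt_arg ((c : ℂ) ^ 2 + (z - t) ^ 2)
  have h3 := (Complex.mem_slitPlane_iff_arg.1 h).1
  have h4 := lt_of_le_of_ne (Complex.arg_le_pi ((c : ℂ) ^ 2 + (z - t) ^ 2)) h3
  constructor <;> linarith

theorem slit (c t : ℝ) (hc : 0 < c) (z : ℂ) (h : z.re = t → |z.im| < c) :
    (c : ℂ) ^ 2 + (z - t) ^ 2 ∈ slitPlane := by
  rw [Complex.mem_slitPlane_iff]
  by_contra hcon
  push Not at hcon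
  obtain ⟨h1, h2⟩ := hcon
  have e1 : ((c : ℂ) ^ 2 + (z - t) ^ 2).re = c ^ 2 + (z.re - t) ^ 2 - z.im ^ 2 := by
    simp [pow_two]
    ring
  have e2 : ((c : ℂ) ^ 2 + (z - t) ^ 2).im = 2 * (z.re - t) * z.im := by
    simp [pow_two]
    ring
  rw [e1] at h1
  rw [e2] at h2
  have h3 : z.im ≠ 0 := by
    intro h3
    rw [h3] at h1
    nlinarith [sq_nonneg (z.re - t), pow_pos hc 2]
  have h4 : z.re - t = 0 := by
    rcases mul_eq_zero.1 h2 with h | h
    · linarith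
    · exact absurd h h3
  have h5 := h (by linarith)
  rw [h4] at h1
  have h6 : z.im ^ 2 < c ^ 2 := by
    rw [← sq_abs z.im]
    exact pow_lt_pow_left₀ h5 (abs_nonneg _) two_ne_zero
  nlinarith

theorem t_LO (hQB : S_QB) : S_LO := by
  intro Ω t c hΩ ht h0 ht0 hc h
  have hsl : ∀ z ∈ Ω, (c : ℂ) ^ 2 + (z - t) ^ 2 ∈ slitPlane := fun z hz => slit c t hc z (h z hz)
  have hne : ∀ z ∈ Ω, (c : ℂ) ^ 2 + (z - t) ^ 2 ≠ 0 := fun z hz => Complex.slitPlane_ne_zero (hsl z hz)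
  have hre : ∀ z ∈ Ω, 0 < (sr c t z).re := fun z hz => sr_re c t z (hsl z hz)
  have hden : ∀ z ∈ Ω, (c : ℂ) + sr c t z ≠ 0 := by
    intro z hz h1
    have h2 := congrArg Complex.re h1
    rw [Complex.add_re, Complex.ofReal_re, Complex.zero_re] at h2
    linarith [hre z hz]
  obtain ⟨g, hg⟩ : ∃ g : ℂ → ℂ, g = fun z => ((c : ℂ) + sr c t z)⁻¹ := ⟨_, rfl⟩
  obtain ⟨f, hf⟩ : ∃ f : ℂ → ℂ, f = fun z => (z - t) * g z := ⟨_, rfl⟩
  have hgd : ∀ z ∈ Ω, DifferentiableAt ℂ g z := by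
    intro z hz
    rw [hg]
    refine DifferentiableAt.inv ?_ (hden z hz)
    refine (differentiableAt_const _).add ?_
    unfold sr
    refine DifferentiableAt.cexp ?_
    refine DifferentiableAt.div_const ?_ _
    refine DifferentiableAt.clog ?_ (hsl z hz)
    fun_prop
  have hfd : ∀ z ∈ Ω, DifferentiableAt ℂ f z := by
    intro z hz
    rw [hf]
    exact (differentiableAt_id.sub_const _).mul (hgd z hz)
  have hft : f t = 0 := by
    rw [hf]
    simp
  have hmaps : MapsTo f Ω (ball 0 1) := by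
    intro z hz
    rw [mem_ball_zero_iff]
    have h1 : ‖(sr c t z) - c‖ < ‖(c : ℂ) + sr c t z‖ := by
      have h2 : ‖(sr c t z) - c‖ ^ 2 < ‖(c : ℂ) + sr c t z‖ ^ 2 := by
        rw [← Complex.normSq_eq_norm_sq, ← Complex.normSq_eq_norm_sq, Complex.normSq_apply, Complex.normSq_apply]
        simp only [Complex.sub_re, Complex.sub_im, Complex.add_re, Complex.add_im, Complex.ofReal_re,
          Complex.ofReal_im]
        nlinarith [mul_pos hc (hre z hz)]
      exact lt_of_pow_lt_pow_left₀ 2 (norm_nonneg _) h2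
    have h3 : (z - t) ^ 2 = (sr c t z - c) * ((c : ℂ) + sr c t z) := by
      have := sr_sq c t z (hne z hz)
      linear_combination -this
    have h4 : ‖z - t‖ ^ 2 = ‖sr c t z - c‖ * ‖(c : ℂ) + sr c t z‖ := by
      rw [← norm_pow, h3, norm_mul]
    have hpos : 0 < ‖(c : ℂ) + sr c t z‖ := norm_pos_iff.2 (hden z hz)
    have h5 : ‖z - t‖ < ‖(c : ℂ) + sr c t z‖ := by
      apply lt_of_pow_lt_pow_left₀ 2 (norm_nonneg _)
      rw [h4, pow_two]
      exact mul_lt_mul_of_pos_right h1 hpos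
    rw [hf, hg]
    simp only
    rw [norm_mul, norm_inv, ← div_eq_mul_inv, div_lt_one hpos]
    exact h5
  have hq := (hQB Ω t 0 hΩ ht h0).2.2.2.1 f (fun z hz => (hfd z hz).differentiableWithinAt) hmaps hft
  have hds : dslope f t 0 = g 0 := by
    by_cases h1 : (0 : ℂ) = t
    · rw [← h1, dslope_same]
      rw [hf]
      have h2 : HasDerivAt (fun z : ℂ => (z - t) * g z) (1 * g 0 + (0 - t) * deriv g 0) 0 :=
        ((hasDerivAt_id (0 : ℂ)).sub_const (t : ℂ)).mul (hgd 0 h0).hasDerivAt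
      rw [h2.deriv, ← h1]
      ring
    · rw [dslope_of_ne _ h1, slope_def_field, hft, hf]
      simp only
      have h3 : (0 : ℂ) - t ≠ 0 := sub_ne_zero.2 h1
      field_simp
      ring
  rw [hds] at hq
  refine le_trans ?_ hq
  rw [hg]
  simp only
  rw [norm_inv, one_div]
  have hpos : 0 < ‖(c : ℂ) + sr c t 0‖ := norm_pos_iff.2 (hden 0 h0)
  apply inv_anti₀ hpos
  have h6 : ‖sr c t 0‖ ≤ c + t := by
    refine le_of_sq_le_sq ?_ (by linarith)
    have h7 := congrArg norm (sr_sq c t 0 (hne 0 h0))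
    rw [norm_pow] at h7
    rw [h7]
    have h8 : (c : ℂ) ^ 2 + (0 - t) ^ 2 = ((c ^ 2 + t ^ 2 : ℝ) : ℂ) := by
      push_cast
      ring
    rw [h8, Complex.norm_real, Real.norm_of_nonneg (by positivity)]
    nlinarith [mul_nonneg hc.le ht0]
  calc ‖(c : ℂ) + sr c t 0‖ ≤ ‖(c : ℂ)‖ + ‖sr c t 0‖ := norm_add_le _ _
    _ ≤ c + (c + t) := by
        rw [Complex.norm_real, Real.norm_of_nonneg hc.le]
        linarith
    _ = 2 * c + t := by ring

end Pool.Agent.Q154.HM
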