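import Pool.Agent.Q75.HM.Stm

set_option autoImplicit false

/-!
# Project HM (helper75), job UL: Montel along an ultrafilter
-/

namespace Pool.Agent.Q154.HM

open Complex Set Metric Filter Topology

open Pool.Agent.Q75.HM

theorem t_UL : S_UL := by
  classical
  intro 𝒰 U F hU hF
  -- smaller balls inside `U`
  have hF' : ∀ z ∈ U, ∃ r : ℝ, 0 < r ∧ ball z r ⊆ U ∧ ∀ᶠ n in (𝒰 : Filter ℕ),
      DifferentiableOn ℂ (F n) (ball z r) ∧ ∀ w ∈ ball z r, ‖F n w‖ ≤ 1 := by
    intro z hz
    obtain ⟨r, hr, h⟩ := hF z hz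
    obtain ⟨R, hR, hRU⟩ := Metric.isOpen_iff.1 hU z hz
    refine ⟨min r R, lt_min hr hR, (ball_subset_ball (min_le_right _ _)).trans hRU, ?_⟩
    filter_upwards [h] with n hn
    exact ⟨hn.1.mono (ball_subset_ball (min_le_left _ _)), fun w hw =>
      hn.2 w (ball_subset_ball (min_le_left _ _) hw)⟩
  -- pointwise limits
  have hlim : ∀ z : ℂ, ∃ y : ℂ, z ∈ U → Tendsto (fun n => F n z) (𝒰 : Filter ℕ) (𝓝 y) := by
    intro z
    by_cases hz : z ∈ U
    · obtain ⟨r, hr, -, h⟩ := hF' z hz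
      have h1 : ((𝒰.map (fun n => F n z) : Ultrafilter ℂ) : Filter ℂ) ≤ 𝓟 (closedBall 0 1) := by
        rw [le_principal_iff, Ultrafilter.mem_coe, Ultrafilter.mem_map]
        change ∀ᶠ n in (𝒰 : Filter ℕ), F n z ∈ closedBall (0 : ℂ) 1
        filter_upwards [h] with n hn
        rw [mem_closedBall_zero_iff]
        exact hn.2 z (mem_ball_self hr)
      obtain ⟨y, -, hy⟩ := (isCompact_closedBall (0 : ℂ) 1).ultrafilter_le_nhds _ h1
      exact ⟨y, fun _ => hy⟩
    · exact ⟨0, fun h => absurd h hz⟩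
  choose f hf using hlim
  have hloc : ∀ z ∈ U, ∃ r : ℝ, 0 < r ∧ (∀ᶠ n in (𝒰 : Filter ℕ), DifferentiableOn ℂ (F n) (ball z r)) ∧
      TendstoLocallyUniformlyOn F f (𝒰 : Filter ℕ) (ball z r) := by
    intro z hz
    obtain ⟨r, hr, hrU, h⟩ := hF' z hz
    refine ⟨r, hr, h.mono fun n hn => hn.1, ?_⟩
    obtain ⟨F', hF'⟩ : ∃ F' : ℕ → ℂ → ℂ, F' = fun n => if DifferentiableOn ℂ (F n) (ball z r) ∧
        (∀ w ∈ ball z r, ‖F n w‖ ≤ 1) then F n else fun _ => 0 := ⟨_, rfl⟩
    have hee : ∀ᶠ n in (𝒰 : Filter ℕ), F' n = F n := by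
      filter_upwards [h] with n hn
      rw [hF']
      simp only
      rw [if_pos hn]
    have h1 : TendstoLocallyUniformlyOn F' f (𝒰 : Filter ℕ) (ball z r) := by
      refine Pool.Agent.Helper405.Riemann.tlu_of_pointwise (M := 1) isOpen_ball ?_ ?_ ?_
      · intro n
        rw [hF']
        simp only
        split_ifs with hn
        · exact hn.1
        · exact differentiableOn_const _
      · intro n w hw
        rw [hF']
        simp only
        split_ifs with hn
        · exact hn.2 w hw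
        · simp
      · intro w hw
        refine (hf w (hrU hw)).congr' ?_
        filter_upwards [hee] with n hn
        rw [hn]
    intro u hu x hx
    obtain ⟨t, ht, h2⟩ := h1 u hu x hx
    refine ⟨t, ht, ?_⟩
    filter_upwards [h2, hee] with n hn hn'
    rw [← hn']
    exact hn
  refine ⟨f, ?_, ?_⟩
  · intro z hz
    obtain ⟨r, hr, h1, h2⟩ := hloc z hz
    have h3 := h2.differentiableOn h1 isOpen_ball
    exact (h3.differentiableAt (isOpen_ball.mem_nhds (mem_ball_self hr))).differentiableWithinAt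
  · intro z hz
    obtain ⟨r, hr, h1, h2⟩ := hloc z hz
    refine ⟨r / 2, by positivity, ?_⟩
    have h3 := (tendstoLocallyUniformlyOn_iff_forall_isCompact isOpen_ball).1 h2 (closedBall z (r / 2))
      (closedBall_subset_ball (by linarith)) (isCompact_closedBall _ _)
    exact h3.mono ball_subset_closedBall

end Pool.Agent.Q154.HM
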